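import Mathlib
import Pool.Agent.N8.SqFree.Basic

namespace Pool.Agent.Results.MP_3acc10_al.PrincipalCharP

open MvPolynomial Pool.Agent.N8.SqFree

universe u

/-! ### forms in characteristic `p` -/

section charp
variable {n : ℕ} {K : Type u} [Field K]

lemma form_homogeneous (d : ℕ) (c : {T : Finset (Fin n) // T.card = d} → K) :
    (form d c).IsHomogeneous d := by
  classical
  unfold form
  refine IsHomogeneous.sum _ _ _ fun T _ => ?_
  have h1 := prod_mem_homogeneous (K := K) T.1
  rw [T.2, mem_homogeneousSubmodule] at h1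
  have := (isHomogeneous_C (Fin n) (c T)).mul h1
  rwa [zero_add] at this

/-- the ideal of squares -/
noncomputable def sqIdeal (K : Type u) [Field K] (n : ℕ) : Ideal (MvPolynomial (Fin n) K) :=
  Ideal.span (Set.range fun i : Fin n => (X i ^ 2 : MvPolynomial (Fin n) K))

lemma form_pow_char (p : ℕ) [Fact p.Prime] [CharP K p] (d : ℕ) (hd : 1 ≤ d)
    (c : {T : Finset (Fin n) // T.card = d} → K) : form d c ^ p ∈ sqIdeal K n := by
  classical
  have hp2 : 2 ≤ p := (Fact.out : p.Prime).two_le
  unfold form
  rw [sum_pow_char p]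
  refine Ideal.sum_mem _ fun T _ => ?_
  rw [mul_pow, ← Finset.prod_pow]
  refine Ideal.mul_mem_left _ _ ?_
  obtain ⟨i, hi⟩ : T.1.Nonempty := by
    rw [← Finset.card_pos, T.2]; omega
  rw [← Finset.mul_prod_erase _ _ hi]
  refine Ideal.mul_mem_right _ _ ?_
  obtain ⟨q, rfl⟩ := Nat.exists_eq_add_of_le hp2
  rw [pow_add]
  exact Ideal.mul_mem_right _ _ (Ideal.subset_span ⟨i, rfl⟩)

lemma sq_mul_form_eq_zero (d k : ℕ) (c : {T : Finset (Fin n) // T.card = d} → K)
    (q : MvPolynomial (Fin n) K) (hq : sq K n (k - d) q = 0) :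
    sq K n k (q * form d c) = 0 := by
  classical
  ext T
  rw [sq_apply, coeff_mul_form, Pi.zero_apply]
  refine Finset.sum_eq_zero fun U _ => ?_
  split_ifs with h
  · have hc : (T.1 \ U.1).card = k - d := by
      rw [Finset.card_sdiff_of_subset h, T.2, U.2]
    have := congrFun hq ⟨T.1 \ U.1, hc⟩
    rw [sq_apply, Pi.zero_apply] at this
    rw [this, mul_zero]
  · rw [mul_zero]

lemma idealOf_one (f : Fin 1 → MvPolynomial (Fin n) K) {x : MvPolynomial (Fin n) K}
    (hx : x ∈ idealOf f) : ∃ q, ∃ y ∈ sqIdeal K n, x = y + q * f 0 := by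
  classical
  obtain ⟨y, hy, z, hz, rfl⟩ := Submodule.mem_sup.1 hx
  obtain ⟨q, rfl⟩ := Ideal.mem_span_range_iff_exists_fun.1 hz
  exact ⟨q 0, y, hy, by simp⟩

lemma finrank_sq_dim (k : ℕ) :
    Module.finrank K ({T : Finset (Fin n) // T.card = k} → K) = n.choose k := by
  classical
  rw [Module.finrank_fintype_fun_eq_card, Fintype.card_finset_len, Fintype.card_fin]

/-- The Hilbert function of a principal quotient is too large. -/
lemma hilb_lower (p : ℕ) [Fact p.Prime] [CharP K p] (d : ℕ) (hd : 1 ≤ d)
    (c : {T : Finset (Fin n) // T.card = d} → K) (f : Fin 1 → MvPolynomial (Fin n) K)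
    (hf : f 0 = form d c) (hn : d * (2 * p - 1) ≤ n) :
    ∃ k, d ≤ k ∧ 2 * k ≤ n + d ∧
      n.choose k + 1 ≤ hilb (idealOf f) k + n.choose (k - d) := by
  classical
  have hp2 : 2 ≤ p := (Fact.out : p.Prime).two_le
  have hex : ∃ e, form d c ^ (e + 1) ∈ sqIdeal K n := by
    obtain ⟨q, hq⟩ := Nat.exists_eq_add_of_le (show 1 ≤ p by omega)
    refine ⟨q, ?_⟩
    rw [add_comm, ← hq]
    exact form_pow_char p d hd c
  set e := Nat.find hex with he
  have he1 : form d c ^ (e + 1) ∈ sqIdeal K n := Nat.find_spec hex
  have he2 : e + 1 ≤ p := by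
    obtain ⟨q, hq⟩ := Nat.exists_eq_add_of_le (show 1 ≤ p by omega)
    have : e ≤ q := Nat.find_min' hex (by
      rw [add_comm, ← hq]
      exact form_pow_char p d hd c)
    omega
  have he3 : form d c ^ e ∉ sqIdeal K n := by
    intro h
    rcases Nat.eq_zero_or_pos e with h0 | h0
    · rw [h0, pow_zero] at h
      have := coeff_of_mem_sq h ∅
      have hchi : chi (∅ : Finset (Fin n)) = 0 := by simp [chi]
      rw [hchi, coeff_zero_one] at this
      exact one_ne_zero this
    · obtain ⟨q, hq⟩ := Nat.exists_eq_add_of_le' h0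
      have : e ≤ q := Nat.find_min' hex (by rw [← hq]; exact h)
      omega
  set k := d * (e + 1) with hk
  have hkd : k - d = d * e := by rw [hk, mul_add, mul_one, Nat.add_sub_cancel]
  refine ⟨k, ?_, ?_, ?_⟩
  · rw [hk]; exact Nat.le_mul_of_pos_right _ (by omega)
  · have h1 : d * (e + 1) ≤ d * p := Nat.mul_le_mul_left _ he2
    have h2 : d * (2 * p - 1) + d = 2 * (d * p) := by
      obtain ⟨q, hq⟩ := Nat.exists_eq_add_of_le (show 1 ≤ p by omega)
      rw [hq]
      have : 2 * (1 + q) - 1 = 2 * q + 1 := by omega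
      rw [this]; ring
    omega
  · have h0 := card_le_hilb (idealOf f) k
    rw [finrank_sq_dim] at h0
    -- multiplication by the form
    let g : MvPolynomial (Fin n) K →ₗ[K] ({T : Finset (Fin n) // T.card = k} → K) :=
      (sq K n k).comp (LinearMap.mulRight K (form d c))
    have hgapp : ∀ q, g q = sq K n k (q * form d c) := fun q => rfl
    let π := sq K n (k - d)
    have hπ : Function.Surjective π := by
      intro v
      have : v ∈ (homogeneousSubmodule (Fin n) K (k - d)).map (sq K n (k - d)) := by
        rw [map_sq_homogeneous]; trivial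
      obtain ⟨x, -, hx⟩ := this
      exact ⟨x, hx⟩
    obtain ⟨s, hs⟩ := π.exists_rightInverse_of_surjective (LinearMap.range_eq_top.2 hπ)
    have hs' : ∀ x, π (s x) = x := fun x => by
      have := congrArg (fun f => f x) hs
      simpa using this
    have hgb : ∀ x, g.comp s (π x) = g x := by
      intro x
      rw [LinearMap.comp_apply, ← sub_eq_zero, ← map_sub, hgapp]
      apply sq_mul_form_eq_zero
      rw [map_sub]
      change π (s (π x)) - π x = 0
      rw [hs', sub_self]
    have hW : ((idealOf f).restrictScalars K).map (sq K n k) ≤ LinearMap.range (g.comp s) := by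
      rintro _ ⟨x, hx, rfl⟩
      obtain ⟨q, y, hy, rfl⟩ := idealOf_one f hx
      refine ⟨π q, ?_⟩
      rw [hgb, hgapp, hf, map_add]
      have : sq K n k y = 0 := by
        ext T
        exact coeff_of_mem_sq hy T.1
      rw [this, zero_add]
    have h1 := Submodule.finrank_mono hW
    have h2 := LinearMap.finrank_range_add_finrank_ker (g.comp s)
    rw [finrank_sq_dim] at h2
    have h3 : 1 ≤ Module.finrank K (LinearMap.ker (g.comp s)) := by
      rw [Nat.one_le_iff_ne_zero, ← Nat.pos_iff_ne_zero, Module.finrank_pos_iff_exists_ne_zero]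
      refine ⟨⟨π (form d c ^ e), ?_⟩, ?_⟩
      · rw [LinearMap.mem_ker, hgb, hgapp, ← pow_succ]
        ext T
        exact coeff_of_mem_sq he1 T.1
      · intro h
        have h' : π (form d c ^ e) = 0 := congrArg Subtype.val h
        apply he3
        apply mem_sq_of_coeff
        intro T
        by_cases hT : T.card = k - d
        · exact congrFun h' ⟨T, hT⟩
        · have hh := (form_homogeneous d c).pow e
          apply hh.coeff_eq_zero
          rw [chi_degree]
          rw [hkd] at hT
          exact hT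
    omega

end charp


/-- **Failure in characteristic `p`, for principal ideals of every degree.** Over every field of
characteristic `p > 0`, for one generator of any degree `d ≥ 1` and every `n ≥ d (2p-1)`, no form of
degree `d` at all has the predicted series `⟨(1+t)^n (1-t^d)⟩`; in particular, when the field is
infinite, the generic form does not. -/
theorem result :
    ∀ (p : ℕ) [Fact p.Prime] (K : Type u) [Field K] [CharP K p] (d n : ℕ), 1 ≤ d →
      d * (2 * p - 1) ≤ n →
      (∀ c : CoeffIdx n ![d] → K, seriesOf c ≠ predicted n ![d]) ∧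
      (Infinite K → ¬ GenericSeries K n ![d] (predicted n ![d])) := by
  classical
  intro p _ K _ _ d n hd hn
  have key : ∀ c : CoeffIdx n ![d] → K, seriesOf c ≠ predicted n ![d] := by
    intro c h
    obtain ⟨k, hk1, hk2, hk3⟩ := hilb_lower p d hd (fun T => c ⟨0, T⟩)
      (fun j => form ((![d] : Fin 1 → ℕ) j) fun T => c ⟨j, T⟩) rfl hn
    have hch := choose_le n (k - d) k (by omega) (by omega)
    have h1 := coeff_pred_le n d k hk1 hch
    rw [← h] at h1
    unfold seriesOf hilbertSeries at h1
    rw [PowerSeries.coeff_mk] at h1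
    have h4 : ((n.choose k : ℤ) + 1) ≤
        hilb (idealOf fun j => form ((![d] : Fin 1 → ℕ) j) fun T => c ⟨j, T⟩) k +
          n.choose (k - d) := by
      exact_mod_cast hk3
    have h5 := (h4.trans (add_le_add h1 le_rfl))
    linarith
  refine ⟨key, ?_⟩
  rintro _ ⟨g, hg, h⟩
  obtain ⟨c, hc⟩ := exists_eval_ne g hg
  exact key c (h c hc)

end Pool.Agent.Results.MP_3acc10_al.PrincipalCharP
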