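import Mathlib
import Pool.Agent.N8.SqFree.Basic

namespace Pool.Agent.Results.MP_3acc10_al.TwoLinearForms

open MvPolynomial Pool.Agent.N8.SqFree

universe u

/-! ### the functional -/

section functional
variable {K : Type u} [Field K] {n : ℕ}

lemma lagrange_sum (x : Fin n → K) (hx : Function.Injective x) (P : Polynomial K)
    (hP : P.natDegree < n - 1) :
    ∑ l, P.eval (x l) / ∏ m ∈ Finset.univ.erase l, (x l - x m) = 0 := by
  have hcard : (Finset.univ : Finset (Fin n)).card = n := by simp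
  have hdeg : P.degree < ((Finset.univ : Finset (Fin n)).card : WithBot ℕ) := by
    rw [hcard]
    exact lt_of_le_of_lt Polynomial.degree_le_natDegree (by exact_mod_cast (by omega))
  rw [← Lagrange.coeff_eq_sum hx.injOn hdeg, hcard]
  exact Polynomial.coeff_eq_zero_of_natDegree_lt hP

/-- coefficients of the functional -/
noncomputable def cT (x b : Fin n → K) (T : Finset (Fin n)) : K :=
  (∏ i ∈ T, ((∏ m ∈ Finset.univ.erase i, (x i - x m))⁻¹ * (b i)⁻¹)) *
    ∏ i ∈ T, ∏ j ∈ T.erase i, (x i - x j)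

lemma cT_insert (x b : Fin n → K) (S : Finset (Fin n)) (l : Fin n) (hl : l ∉ S) :
    cT x b (insert l S) = cT x b S * ((∏ m ∈ Finset.univ.erase l, (x l - x m))⁻¹ * (b l)⁻¹ *
      ∏ i ∈ S, ((x l - x i) * (x i - x l))) := by
  classical
  unfold cT
  rw [Finset.prod_insert hl, Finset.prod_insert hl, Finset.erase_insert hl,
    Finset.prod_mul_distrib (f := fun i => x l - x i)]
  have h1 : ∏ i ∈ S, ∏ j ∈ (insert l S).erase i, (x i - x j) =
      (∏ i ∈ S, (x i - x l)) * ∏ i ∈ S, ∏ j ∈ S.erase i, (x i - x j) := by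
    rw [← Finset.prod_mul_distrib]
    refine Finset.prod_congr rfl fun i hi => ?_
    have hne : l ≠ i := fun h => hl (h ▸ hi)
    rw [Finset.erase_insert_of_ne hne, Finset.prod_insert]
    intro h
    exact hl (Finset.mem_of_mem_erase h)
  rw [h1]
  ring

lemma cT_sum (x b : Fin n → K) (hx : Function.Injective x) (hb : ∀ i, b i ≠ 0)
    (S : Finset (Fin n)) (s : ℕ) (hs : s + 2 * S.card < n - 1) :
    ∑ l ∈ Finset.univ \ S, (b l * x l ^ s) * cT x b (insert l S) = 0 := by
  classical
  let P : Polynomial K := Polynomial.X ^ s *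
    ∏ i ∈ S, ((Polynomial.X - Polynomial.C (x i)) * (Polynomial.C (x i) - Polynomial.X))
  have hP : P.natDegree < n - 1 := by
    have h1 : P.natDegree ≤ s + ∑ i ∈ S, 2 := by
      refine le_trans Polynomial.natDegree_mul_le (Nat.add_le_add ?_ ?_)
      · exact Polynomial.natDegree_X_pow_le s
      · refine le_trans (Polynomial.natDegree_prod_le _ _) (Finset.sum_le_sum fun i _ => ?_)
        refine le_trans Polynomial.natDegree_mul_le (Nat.add_le_add (b := 1) (d := 1) ?_ ?_)
        · exact (Polynomial.natDegree_X_sub_C_le _)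
        · rw [← neg_sub, Polynomial.natDegree_neg]
          exact (Polynomial.natDegree_X_sub_C_le _)
    rw [Finset.sum_const] at h1
    simp only [smul_eq_mul] at h1
    omega
  have hev : ∀ l, P.eval (x l) = x l ^ s * ∏ i ∈ S, ((x l - x i) * (x i - x l)) := by
    intro l
    simp only [P, Polynomial.eval_mul, Polynomial.eval_pow, Polynomial.eval_X,
      Polynomial.eval_prod, Polynomial.eval_sub, Polynomial.eval_C]
  have h0 := lagrange_sum x hx P hP
  have h1 : ∑ l ∈ Finset.univ \ S, P.eval (x l) / ∏ m ∈ Finset.univ.erase l, (x l - x m) = 0 := by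
    rw [← h0]
    refine Finset.sum_subset (Finset.subset_univ _) fun l _ hl => ?_
    have hlS : l ∈ S := by
      by_contra h
      exact hl (Finset.mem_sdiff.2 ⟨Finset.mem_univ _, h⟩)
    rw [hev, Finset.prod_eq_zero hlS (by rw [sub_self, zero_mul]), mul_zero, zero_div]
  have h2 : ∑ l ∈ Finset.univ \ S, (b l * x l ^ s) * cT x b (insert l S) =
      cT x b S * ∑ l ∈ Finset.univ \ S,
        P.eval (x l) / ∏ m ∈ Finset.univ.erase l, (x l - x m) := by
    rw [Finset.mul_sum]
    refine Finset.sum_congr rfl fun l hl => ?_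
    rw [cT_insert x b S l (Finset.mem_sdiff.1 hl).2, hev, div_eq_mul_inv]
    have := mul_inv_cancel₀ (hb l)
    linear_combination (x l ^ s * cT x b S * (∏ m ∈ Finset.univ.erase l, (x l - x m))⁻¹ *
      ∏ i ∈ S, ((x l - x i) * (x i - x l))) * this
  rw [h2, h1, mul_zero]

lemma cT_ne_zero (x b : Fin n → K) (hx : Function.Injective x) (hb : ∀ i, b i ≠ 0)
    (T : Finset (Fin n)) : cT x b T ≠ 0 := by
  classical
  intro h1
  unfold cT at h1
  have hsub : ∀ i j : Fin n, j ≠ i → x i - x j ≠ 0 := fun i j hij =>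
    sub_ne_zero.2 fun h => hij (hx h).symm
  rcases mul_eq_zero.1 h1 with h2 | h2
  · rw [Finset.prod_eq_zero_iff] at h2
    obtain ⟨i, -, h3⟩ := h2
    rcases mul_eq_zero.1 h3 with h4 | h4
    · rw [inv_eq_zero, Finset.prod_eq_zero_iff] at h4
      obtain ⟨j, hj, h5⟩ := h4
      exact hsub i j (Finset.ne_of_mem_erase hj) h5
    · exact hb i (inv_eq_zero.1 h4)
  · rw [Finset.prod_eq_zero_iff] at h2
    obtain ⟨i, -, h3⟩ := h2
    rw [Finset.prod_eq_zero_iff] at h3
    obtain ⟨j, hj, h5⟩ := h3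
    exact hsub i j (Finset.ne_of_mem_erase hj) h5

lemma sum_swap (F G : Finset (Fin n) → K) (a : Fin n → K) (k : ℕ) :
    ∑ T ∈ Finset.powersetCard (k + 1) Finset.univ, F T * ∑ l ∈ T, a l * G (T.erase l) =
    ∑ S ∈ Finset.powersetCard k Finset.univ, G S *
      ∑ l ∈ Finset.univ \ S, a l * F (insert l S) := by
  classical
  simp only [Finset.mul_sum]
  rw [Finset.sum_sigma', Finset.sum_sigma']
  refine Finset.sum_bij' (fun y _ => ⟨y.1.erase y.2, y.2⟩) (fun y _ => ⟨insert y.2 y.1, y.2⟩)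
    ?_ ?_ ?_ ?_ ?_
  · rintro ⟨T, l⟩ h
    simp only [Finset.mem_sigma, Finset.mem_powersetCard_univ] at h ⊢
    refine ⟨?_, ?_⟩
    · rw [Finset.card_erase_of_mem h.2, h.1]; rfl
    · simp
  · rintro ⟨S, l⟩ h
    simp only [Finset.mem_sigma, Finset.mem_powersetCard_univ, Finset.mem_sdiff] at h ⊢
    refine ⟨?_, ?_⟩
    · rw [Finset.card_insert_of_notMem h.2.2, h.1]
    · simp
  · rintro ⟨T, l⟩ h
    simp only [Finset.mem_sigma] at h
    simp only [Finset.insert_erase h.2]
  · rintro ⟨S, l⟩ h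
    simp only [Finset.mem_sigma, Finset.mem_sdiff] at h
    simp only [Finset.erase_insert h.2.2]
  · rintro ⟨T, l⟩ h
    simp only [Finset.mem_sigma] at h
    simp only [Finset.insert_erase h.2]
    ring

lemma sum_one_subsets (F : {U : Finset (Fin n) // U.card = 1} → K) :
    ∑ U, F U = ∑ l : Fin n, F ⟨{l}, Finset.card_singleton l⟩ := by
  classical
  refine (Fintype.sum_bijective (fun l : Fin n =>
    (⟨{l}, Finset.card_singleton l⟩ : {U : Finset (Fin n) // U.card = 1})) ⟨?_, ?_⟩ _ _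
    (fun _ => rfl)).symm
  · intro a b h
    have := congrArg Subtype.val h
    exact Finset.singleton_injective this
  · rintro ⟨U, hU⟩
    obtain ⟨l, rfl⟩ := Finset.card_eq_one.1 hU
    exact ⟨l, rfl⟩

lemma functional_form (k : ℕ) (F : Finset (Fin n) → K)
    (c : {U : Finset (Fin n) // U.card = 1} → K)
    (hF : ∀ S : Finset (Fin n), S.card = k →
      ∑ l ∈ Finset.univ \ S, c ⟨{l}, Finset.card_singleton l⟩ * F (insert l S) = 0)
    (q : MvPolynomial (Fin n) K) :
    ∑ T : {T : Finset (Fin n) // T.card = k + 1}, F T.1 * coeff (chi T.1) (q * form 1 c) = 0 := by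
  classical
  have h1 : ∀ T : {T : Finset (Fin n) // T.card = k + 1}, coeff (chi T.1) (q * form 1 c) =
      ∑ l ∈ T.1, c ⟨{l}, Finset.card_singleton l⟩ * coeff (chi (T.1.erase l)) q := by
    intro T
    rw [coeff_mul_form, sum_one_subsets]
    rw [← Finset.sum_subset (Finset.subset_univ T.1)]
    · refine Finset.sum_congr rfl fun l hl => ?_
      rw [if_pos (Finset.singleton_subset_iff.2 hl), Finset.sdiff_singleton_eq_erase]
    · intro l _ hl
      rw [if_neg (fun h => hl (Finset.singleton_subset_iff.1 h)), mul_zero]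
  simp only [h1]
  rw [← Finset.sum_subtype (Finset.powersetCard (k + 1) (Finset.univ : Finset (Fin n)))
    (p := fun T => T.card = k + 1) (fun T => by simp)
    (fun T => F T * ∑ l ∈ T, c ⟨{l}, Finset.card_singleton l⟩ * coeff (chi (T.erase l)) q),
    sum_swap F (fun S => coeff (chi S) q) (fun l => c ⟨{l}, Finset.card_singleton l⟩) k]
  refine Finset.sum_eq_zero fun S hS => ?_
  rw [hF S (Finset.mem_powersetCard_univ.1 hS), mul_zero]

/-- For two linear forms `∑ b_i x_i X_i`, `∑ b_i X_i` with `b_i ≠ 0` and distinct `x_i` the quotient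
does not vanish in degree `k + 1` when `2 k + 3 ≤ n`. -/
lemma hilb_pos (k : ℕ) (hk : 2 * k + 3 ≤ n)
    (x b : Fin n → K) (hx : Function.Injective x) (hb : ∀ i, b i ≠ 0)
    (f : Fin 2 → MvPolynomial (Fin n) K)
    (c₀ c₁ : {U : Finset (Fin n) // U.card = 1} → K)
    (hc₀ : ∀ l, c₀ ⟨{l}, Finset.card_singleton l⟩ = b l * x l)
    (hc₁ : ∀ l, c₁ ⟨{l}, Finset.card_singleton l⟩ = b l)
    (hf₀ : f 0 = form 1 c₀) (hf₁ : f 1 = form 1 c₁) :
    1 ≤ hilb (idealOf f) (k + 1) := by
  classical
  let φ : ({T : Finset (Fin n) // T.card = k + 1} → K) →ₗ[K] K :=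
    ∑ T : {T : Finset (Fin n) // T.card = k + 1}, (cT x b T.1) • LinearMap.proj T
  have hφ : ∀ v, φ v = ∑ T : {T : Finset (Fin n) // T.card = k + 1}, cT x b T.1 * v T := by
    intro v
    simp [φ, LinearMap.sum_apply]
  have hW : ((idealOf f).restrictScalars K).map (sq K n (k + 1)) ≤ LinearMap.ker φ := by
    rintro _ ⟨p, hp, rfl⟩
    rw [LinearMap.mem_ker]
    obtain ⟨y, hy, z, hz, rfl⟩ := Submodule.mem_sup.1 hp
    obtain ⟨q, rfl⟩ := Ideal.mem_span_range_iff_exists_fun.1 hz
    rw [Fin.sum_univ_two, hf₀, hf₁, map_add, map_add, map_add, map_add]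
    have h0 : sq K n (k + 1) y = 0 := by
      ext T
      exact coeff_of_mem_sq hy T.1
    rw [h0, map_zero, hφ, hφ]
    simp only [sq_apply]
    rw [functional_form k (cT x b) c₀, functional_form k (cT x b) c₁, add_zero, add_zero]
    · intro S hS
      have := cT_sum x b hx hb S 0 (by rw [hS]; omega)
      simpa only [pow_zero, mul_one, hc₁] using this
    · intro S hS
      have := cT_sum x b hx hb S 1 (by rw [hS]; omega)
      simpa only [pow_one, hc₀] using this
  have hne : φ ≠ 0 := by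
    obtain ⟨T₀, -, hT₀⟩ := Finset.exists_subset_card_eq
      (s := (Finset.univ : Finset (Fin n))) (n := k + 1) (by simp; omega)
    intro h
    have h1 : φ (Pi.single ⟨T₀, hT₀⟩ 1) = 0 := by rw [h]; rfl
    rw [hφ] at h1
    rw [Finset.sum_eq_single ⟨T₀, hT₀⟩] at h1
    · rw [Pi.single_eq_same, mul_one] at h1
      exact cT_ne_zero x b hx hb T₀ h1
    · intro T _ hT
      rw [Pi.single_eq_of_ne hT, mul_zero]
    · intro h
      exact absurd (Finset.mem_univ _) h
  have h1 := card_le_hilb (idealOf f) (k + 1)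
  have h2 : ((idealOf f).restrictScalars K).map (sq K n (k + 1)) < ⊤ := by
    refine lt_of_le_of_lt hW ?_
    rw [lt_top_iff_ne_top]
    intro h
    exact hne (LinearMap.ker_eq_top.1 h)
  have h3 := Submodule.finrank_lt h2.ne
  omega

end functional

/-! ### the predicted series for `n = 2 k + 5` -/

lemma coeff_two_nonpos (k : ℕ) (hk : 1 ≤ k) :
    ((2 * k + 5).choose (k + 2) : ℤ) - 2 * (2 * k + 5).choose (k + 1) + (2 * k + 5).choose k ≤
      0 := by
  have h1 := Nat.choose_succ_right_eq (2 * k + 5) k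
  have h2 := Nat.choose_succ_right_eq (2 * k + 5) (k + 1)
  rw [show 2 * k + 5 - k = k + 5 by omega] at h1
  rw [show 2 * k + 5 - (k + 1) = k + 4 by omega] at h2
  set a := (2 * k + 5).choose k
  set b := (2 * k + 5).choose (k + 1)
  have h2' : (2 * k + 5).choose (k + 2) * (k + 2) = b * (k + 4) := h2
  set c := (2 * k + 5).choose (k + 2)
  zify at h1 h2'
  have hb : (0 : ℤ) ≤ b := Int.natCast_nonneg b
  have hk' : (1 : ℤ) ≤ k := by exact_mod_cast hk
  have key : (((c : ℤ) - 2 * b + a)) * ((k + 2) * (k + 5)) = b * (2 - 2 * k) := by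
    linear_combination (k + 5 : ℤ) * h2' - (k + 2 : ℤ) * h1
  have hpos : (0 : ℤ) < (k + 2) * (k + 5) := by positivity
  by_contra hcon
  push Not at hcon
  have h3 : 0 < ((c : ℤ) - 2 * b + a) * ((k + 2) * (k + 5)) := mul_pos hcon hpos
  rw [key] at h3
  nlinarith

lemma coeff_pred (k : ℕ) (hk : 1 ≤ k) :
    PowerSeries.coeff (k + 2) (predicted (2 * k + 5) ![1, 1]) = 0 := by
  unfold predicted trunc
  rw [PowerSeries.coeff_mk]
  have h : PowerSeries.coeff (k + 2) ((1 + PowerSeries.X : PowerSeries ℤ) ^ (2 * k + 5) *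
      ∏ j, (1 - PowerSeries.X ^ (![1, 1] : Fin 2 → ℕ) j)) =
      ((2 * k + 5).choose (k + 2) : ℤ) - 2 * (2 * k + 5).choose (k + 1) +
        (2 * k + 5).choose k := by
    rw [Fin.prod_univ_two]
    have h1 : ((1 + PowerSeries.X : PowerSeries ℤ) ^ (2 * k + 5) *
        ((1 - PowerSeries.X ^ (![1, 1] : Fin 2 → ℕ) 0) *
          (1 - PowerSeries.X ^ (![1, 1] : Fin 2 → ℕ) 1))) =
        (1 + PowerSeries.X) ^ (2 * k + 5) -
          PowerSeries.C 2 * ((1 + PowerSeries.X) ^ (2 * k + 5) * PowerSeries.X ^ 1) +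
          (1 + PowerSeries.X) ^ (2 * k + 5) * PowerSeries.X ^ 2 := by
      simp only [map_ofNat, Matrix.cons_val_zero, Matrix.cons_val_one]
      ring
    rw [h1, map_add, map_sub, PowerSeries.coeff_C_mul, PowerSeries.coeff_mul_X_pow',
      PowerSeries.coeff_mul_X_pow', if_pos (by omega), if_pos (by omega), coeff_binom,
      coeff_binom, coeff_binom]
    rfl
  rw [if_neg]
  intro hall
  have h2 := hall (k + 2) le_rfl
  rw [h] at h2
  have := coeff_two_nonpos k hk
  omega

/-! ### genericity -/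

variable {n : ℕ}

/-- coordinates of the two linear forms -/
def idx (s : Fin 2) (i : Fin n) : CoeffIdx n ![1, 1] :=
  match s with
  | 0 => ⟨0, ⟨{i}, Finset.card_singleton i⟩⟩
  | 1 => ⟨1, ⟨{i}, Finset.card_singleton i⟩⟩

/-- The open set: no coefficient of the second form is zero, and no `2 × 2` minor is zero. -/
noncomputable def openPoly (K : Type u) [Field K] (n : ℕ) : MvPolynomial (CoeffIdx n ![1, 1]) K :=
  (∏ i : Fin n, X (idx 1 i)) * ∏ i : Fin n, ∏ j ∈ Finset.univ.erase i,
    (X (idx 0 i) * X (idx 1 j) - X (idx 0 j) * X (idx 1 i))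

lemma idx_inj (s : Fin 2) (i j : Fin n) (h : idx s i = idx s j) : i = j := by
  fin_cases s
  · have h1 : (⟨0, ⟨{i}, Finset.card_singleton i⟩⟩ : CoeffIdx n ![1, 1]) =
        ⟨0, ⟨{j}, Finset.card_singleton j⟩⟩ := h
    have h2 := eq_of_heq (Sigma.mk.inj h1).2
    exact Finset.singleton_injective (congrArg Subtype.val h2)
  · have h1 : (⟨1, ⟨{i}, Finset.card_singleton i⟩⟩ : CoeffIdx n ![1, 1]) =
        ⟨1, ⟨{j}, Finset.card_singleton j⟩⟩ := h
    have h2 := eq_of_heq (Sigma.mk.inj h1).2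
    exact Finset.singleton_injective (congrArg Subtype.val h2)

lemma idx_ne (i j : Fin n) : idx 0 i ≠ idx 1 j := by
  intro h
  have := congrArg Sigma.fst h
  simp [idx] at this

lemma openPoly_ne_zero (K : Type u) [Field K] : openPoly K n ≠ 0 := by
  classical
  unfold openPoly
  refine mul_ne_zero (Finset.prod_ne_zero_iff.2 fun i _ => X_ne_zero _)
    (Finset.prod_ne_zero_iff.2 fun i _ => Finset.prod_ne_zero_iff.2 fun j hj => ?_)
  intro h
  have hij : j ≠ i := Finset.ne_of_mem_erase hj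
  have h1 := congrArg (eval (fun m => if m = idx 0 i ∨ m = idx 1 j then (1 : K) else 0)) h
  rw [map_zero, map_sub, map_mul, map_mul, eval_X, eval_X, eval_X, eval_X, if_pos (Or.inl rfl),
    if_pos (Or.inr rfl), if_neg (show ¬(idx 0 j = idx 0 i ∨ idx 0 j = idx 1 j) from ?_)] at h1
  · simp at h1
  · rintro (h | h)
    · exact hij (idx_inj _ _ _ h)
    · exact idx_ne _ _ h

lemma series_ne {K : Type u} [Field K] (k : ℕ) (hk : 1 ≤ k)
    (c : CoeffIdx (2 * k + 5) ![1, 1] → K)
    (hc : eval c (openPoly K (2 * k + 5)) ≠ 0) : seriesOf c ≠ predicted (2 * k + 5) ![1, 1] := by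
  classical
  unfold openPoly at hc
  rw [map_mul, map_prod, map_prod, mul_ne_zero_iff, Finset.prod_ne_zero_iff,
    Finset.prod_ne_zero_iff] at hc
  obtain ⟨hb, hx⟩ := hc
  have hb' : ∀ i, c (idx 1 i) ≠ 0 := fun i => by
    have := hb i (Finset.mem_univ _)
    rwa [eval_X] at this
  have hinj : Function.Injective fun i => c (idx 0 i) / c (idx 1 i) := by
    intro i j hij
    by_contra hne
    have h1 := hx i (Finset.mem_univ _)
    rw [map_prod, Finset.prod_ne_zero_iff] at h1
    have h2 := h1 j (Finset.mem_erase.2 ⟨fun h => hne h.symm, Finset.mem_univ _⟩)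
    rw [map_sub, map_mul, map_mul, eval_X, eval_X, eval_X, eval_X] at h2
    apply h2
    have h3 : c (idx 0 i) / c (idx 1 i) = c (idx 0 j) / c (idx 1 j) := hij
    rw [div_eq_div_iff (hb' i) (hb' j)] at h3
    rw [h3, sub_self]
  have h1 := hilb_pos (k + 1) (by omega)
    (fun i => c (idx 0 i) / c (idx 1 i)) (fun i => c (idx 1 i)) hinj hb'
    (fun j => form ((![1, 1] : Fin 2 → ℕ) j) fun T => c ⟨j, T⟩)
    (fun T => c ⟨0, T⟩) (fun T => c ⟨1, T⟩)
    (fun l => by
      change c (idx 0 l) = _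
      rw [mul_div_cancel₀ _ (hb' l)])
    (fun l => rfl) rfl rfl
  intro h
  have h2 := congrArg (PowerSeries.coeff (k + 2)) h
  rw [coeff_pred k hk] at h2
  unfold seriesOf hilbertSeries at h2
  rw [PowerSeries.coeff_mk] at h2
  have h4 : (1 : ℤ) ≤
      hilb (idealOf fun j => form ((![1, 1] : Fin 2 → ℕ) j) fun T => c ⟨j, T⟩) (k + 2) := by
    exact_mod_cast h1
  exact absurd (h4.trans_eq h2) (by norm_num)

/-- **Disproof.** The Hilbert series of a generic ideal of the square-free algebra is not always the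
truncated series: over every infinite field `K`, for every odd `n = 2 m + 1 ≥ 7` and two generators
of degree `1`, on a nonempty Zariski open set of the coefficient space the Hilbert series is not
the predicted one, hence the generic series is not the predicted one. -/
theorem result :
    ∀ (K : Type u) [Field K] [Infinite K] (m : ℕ), 3 ≤ m →
      (∃ g : MvPolynomial (CoeffIdx (2 * m + 1) ![1, 1]) K, g ≠ 0 ∧
        ∀ c, eval c g ≠ 0 → seriesOf c ≠ predicted (2 * m + 1) ![1, 1]) ∧
      ¬ GenericSeries K (2 * m + 1) ![1, 1] (predicted (2 * m + 1) ![1, 1]) := by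
  classical
  intro K _ _ m hm
  obtain ⟨k, rfl⟩ := Nat.exists_eq_add_of_le hm
  obtain ⟨l, hl, hl1⟩ : ∃ l, 2 * (3 + k) + 1 = 2 * l + 5 ∧ 1 ≤ l := ⟨k + 1, by ring, by omega⟩
  rw [hl]
  refine ⟨⟨openPoly K _, openPoly_ne_zero K, fun c hc => series_ne l hl1 c hc⟩, ?_⟩
  rintro ⟨g, hg, h⟩
  obtain ⟨c, hc⟩ := exists_eval_ne (g * openPoly K _) (mul_ne_zero hg (openPoly_ne_zero K))
  rw [map_mul, mul_ne_zero_iff] at hc
  exact series_ne l hl1 c hc.2 (h c hc.1)

end Pool.Agent.Results.MP_3acc10_al.TwoLinearForms
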